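import Pool.Agent.H2.ST.Targets

/-!
The prime factor through the origin of a homogeneous parameter.
-/

set_option autoImplicit false

namespace Pool.Agent.H41.ST2

open Pool.Agent.H2.ST MvPolynomial

theorem exists_prime_factor {k : Type} [Field k] {m : ℕ} (y : Pol k m) (hy : y ≠ 0)
    (h0 : constantCoeff y = 0) : ∃ u s : Pol k m, y = u * s ∧ Prime u ∧ constantCoeff u = 0 := by
  induction y using UniqueFactorizationMonoid.induction_on_prime with
  | h₁ => exact absurd rfl hy
  | h₂ x hx =>
    exfalso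
    have h1 : IsUnit (constantCoeff x) := hx.map constantCoeff
    rw [h0] at h1
    exact not_isUnit_zero h1
  | h₃ a p ha hp ih =>
    rw [map_mul] at h0
    rcases mul_eq_zero.1 h0 with h1 | h1
    · exact ⟨p, a, rfl, hp, h1⟩
    · obtain ⟨u, s, hus, hu, hu0⟩ := ih ha h1
      exact ⟨u, p * s, by rw [hus]; ring, hu, hu0⟩

theorem pf_PRM (h1 : T_FAC) : T_PRM := by
  intro k _ m Γ _ _ W hP a y z hy hy0 hyz
  have hyne : y ≠ 0 := by
    intro h
    rw [h, zero_br, map_zero] at hyz
    exact hyz rfl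
  obtain ⟨u, s, hus, hu, hu0⟩ := exists_prime_factor y hyne hy0
  have hs0 : constantCoeff s ≠ 0 := by
    intro h
    apply hyz
    rw [hus, mul_br, map_add, map_mul, map_mul, hu0, h, zero_mul, zero_mul, add_zero]
  obtain ⟨b, c, hub, hsc, hbc⟩ := h1 k (Pol k m) Γ W hP.toGr a u s (by rw [← hus]; exact hy)
    (by rw [← hus]; exact hyne)
  have hc : c = 0 := by
    by_contra hc
    exact hs0 (hP.van c hc s hsc)
  subst hc
  rw [add_zero] at hbc
  subst hbc
  exact ⟨u, s, hus, hu, hub, hsc, hu0, hs0⟩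

end Pool.Agent.H41.ST2
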