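import Pool.Agent.H2.ST.Targets

/-!
The centralizer of the split coordinates is factorially closed and consists of invariants.
-/

set_option autoImplicit false

namespace Pool.Agent.H41.ST2

open Pool.Agent.H2.ST MvPolynomial

theorem cmp_comm {k Γ : Type} [Field k] [AddCommGroup Γ] {m : ℕ}
    {W : Γ → Submodule k (Pol k m)} (h : PGr W) {b : Γ} {g : Pol k m} (hg : g ∈ W b)
    {f : Pol k m} (hf : br f g = 0) (χ : Γ) : br (cmp h.toGr f χ) g = 0 := by
  let c : Γ →₀ Pol k m := Finsupp.mapDomain (fun a => a + b)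
    ((cmp h.toGr f).mapRange (fun x => br x g) (zero_br g))
  have hinj : Function.Injective (fun a : Γ => a + b) := add_left_injective b
  have hc1 : ∀ a, c (a + b) = br (cmp h.toGr f a) g := by
    intro a
    have h1 : c (a + b) = ((cmp h.toGr f).mapRange (fun x => br x g) (zero_br g)) a :=
      Finsupp.mapDomain_apply hinj _ a
    rw [h1, Finsupp.mapRange_apply]
  have hc2 : ∀ a, c a ∈ W a := by
    intro a
    have h1 : a = (a - b) + b := by abel
    rw [h1, hc1]
    exact h.pbr _ _ _ _ (cmp_mem h.toGr f _) hg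
  have hc3 : (c.sum fun _ x => x) = 0 := by
    have h1 : (c.sum fun _ x => x) =
        ((cmp h.toGr f).mapRange (fun x => br x g) (zero_br g)).sum fun _ x => x :=
      Finsupp.sum_mapDomain_index (fun _ => rfl) (fun _ _ _ => rfl)
    rw [h1, Finsupp.sum_mapRange_index (fun _ => rfl)]
    have h2 : ((cmp h.toGr f).sum fun _ x => br x g) = br ((cmp h.toGr f).sum fun _ x => x) g := by
      unfold Finsupp.sum
      rw [sum_br]
    rw [h2, cmp_sum, hf]
  have h3 := h.ind c hc2 hc3
  rw [← hc1, h3]
  rfl

theorem pf_KFC (h1 : T_LFC) : T_KFC := by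
  intro k _ _ m Γ _ W w π u v c S hnil
  have hL : ∀ g : Pol k m, (∀ f : Pol k m, ∃ n : ℕ, (br g)^[n] f = 0) →
      ∀ a b : Pol k m, a * b ≠ 0 → br (a * b) g = 0 → br a g = 0 ∧ br b g = 0 := by
    intro g hg a b hab h0
    have hD : LND (br g) := ⟨br_add g, br_mul g, hg⟩
    have h2 : br g (a * b) = 0 := by rw [br_anti, h0, neg_zero]
    obtain ⟨h3, h4⟩ := h1 (Pol k m) (br g) hD a b hab h2
    exact ⟨by rw [br_anti, h3, neg_zero], by rw [br_anti, h4, neg_zero]⟩
  refine ⟨?_, ?_⟩
  · intro a b hab hcen
    have key : ∀ g ∈ act w u v, br a g = 0 ∧ br b g = 0 := by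
      intro g hg
      have h0 : br (a * b) g = 0 := hcen g hg
      obtain ⟨i, hi, hgi⟩ := hg
      refine hL g ?_ a b hab h0
      intro f
      rcases hgi with rfl | rfl
      · exact (hnil i hi f).1
      · exact (hnil i hi f).2
    exact ⟨fun g hg => (key g hg).1, fun g hg => (key g hg).2⟩
  · intro f hf
    have hP : PGr W := S.toPGr
    refine mem_of_cmp hP.toGr fun χ hχ => ?_
    by_contra hne
    have hm : cmp hP.toGr f χ ∈ W χ := cmp_mem hP.toGr f χ
    have hz : ∀ i, w i ≠ 0 → π i χ = 0 := by
      intro i hi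
      have hp := S.par i hi
      have hfu : br (cmp hP.toGr f χ) (u i) = 0 :=
        cmp_comm hP hp.hu (hf (u i) ⟨i, hi, Or.inl rfl⟩) χ
      have hfv : br (cmp hP.toGr f χ) (v i) = 0 :=
        cmp_comm hP hp.hv (hf (v i) ⟨i, hi, Or.inr rfl⟩) χ
      have hdvd : π i (w i) ∣ π i χ := by
        by_contra hnd
        exact hne (hp.zer χ hnd _ hm)
      have hvu : br (v i) (u i) ≠ 0 := by
        rw [hp.vu]
        intro h0
        exact hp.hc (by
          have h1 := congrArg constantCoeff h0
          rwa [constantCoeff_C, map_zero] at h1)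
      rcases lt_trichotomy (π i χ) 0 with hlt | heq | hgt
      · exfalso
        have hle : π i (w i) ≤ - π i χ := Int.le_of_dvd (by omega) (by rwa [dvd_neg])
        obtain ⟨q, hq⟩ := hp.neg 1 χ (by rw [Nat.cast_one, one_mul]; exact hle) _ hm
        rw [pow_one] at hq
        rw [hq] at hfu hne
        have h2 := (hL (u i) (fun g => (hnil i hi g).1) _ _ hne hfu).1
        exact hvu h2
      · exact heq
      · exfalso
        have hle : π i (w i) ≤ π i χ := Int.le_of_dvd hgt hdvd
        obtain ⟨q, hq⟩ := hp.pos 1 χ (by rw [Nat.cast_one, one_mul]; exact hle) _ hm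
        rw [pow_one] at hq
        rw [hq] at hfv hne
        have h2 := (hL (v i) (fun g => (hnil i hi g).2) _ _ hne hfv).1
        rw [br_anti, neg_eq_zero] at h2
        exact hvu h2
    obtain ⟨e, he⟩ := S.wt χ _ hm hne
    have he0 : ∀ i, w i ≠ 0 → e i = 0 := by
      intro i hi
      have h2 := hz i hi
      rw [he, map_sum, Finset.sum_eq_single i] at h2
      · rw [map_zsmul, smul_eq_mul] at h2
        rcases mul_eq_zero.1 h2 with h3 | h3
        · exact h3
        · exact absurd h3 (ne_of_gt (S.par i hi).pa)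
      · intro j _ hj
        rw [map_zsmul, S.pz i hi j hj, smul_zero]
      · intro h3
        exact absurd (Finset.mem_univ i) h3
    apply hχ
    rw [he]
    refine Finset.sum_eq_zero fun i _ => ?_
    by_cases hi : w i = 0
    · rw [hi, smul_zero]
    · rw [he0 i hi, zero_smul]

end Pool.Agent.H41.ST2
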